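import Pool.Agent.Helper27_PCL.CNT
import Pool.Agent.Helper22_PCL.MDQ
import Pool.Agent.Helper36_PCL.QFB
import Pool.Agent.Helper75_PCL.QLM
import Pool.Agent.Helper51_PCL.DST
import Pool.Agent.Helper78_PCL.REP
import Pool.Agent.Helper45_PCL.RST
import Pool.Agent.Helper21_PCL.EXT
import Pool.Agent.Helper60_PCL.LNP
import Pool.Agent.Helper14_PCL.RNK
import Pool.Agent.Helper50_PCL.CRA
import Pool.Agent.Helper86_PCL.DTM
import Pool.Agent.Helper39_PCL.FAC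
import Pool.Agent.Helper50_PCL.IDX
import Pool.Agent.Helper50_PCL.LOW
import Pool.Agent.Helper92_PCL.PRM
import Pool.Agent.Helper16_PCL.PLY
import Pool.Agent.Helper90_PCL.ARC
import Pool.Agent.Helper88_PCL.VDM
import Pool.Agent.Helper13_PCL.CRC
import Pool.Agent.Helper13_PCL.ESY
import Pool.Agent.Helper94_PCL.MOM
import Pool.Agent.Helper34_PCL.BGP
import Pool.Agent.Helper39_PCL.PPW
import Pool.Agent.Helper19_PCL.ARI
import Pool.Agent.Helper70_PCL.CTN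
import Pool.Agent.Helper81_PCL.KAP
import Pool.Agent.Helper98_PCL.PTP
import Pool.Agent.Helper82_PCL.PTH
import Pool.Agent.Helper55_PCL.GAP
import Pool.Agent.Helper55_PCL.PIG
import Pool.Agent.Helper46_PCL.SC2
import Pool.Agent.Helper3_PCL.MN2
import Pool.Agent.Helper19_PCL.FI2

/-!
Squad PCL (MP_1fc801_co): assembly of the theorem `Fi2Stmt`.
-/

set_option autoImplicit false

namespace Pool.Agent.PCL.Asm

theorem cnt : CntStmt := Pool.Agent.PCL.H27.cnt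
theorem qfb : QfbStmt := Pool.Agent.PCL.H36.qfb Pool.Agent.PCL.H22.mdq
theorem qlm : QlmStmt := Pool.Agent.PCL.H75.qlm qfb cnt
theorem lnp : LnpStmt := Pool.Agent.PCL.H60.lnp cnt
theorem rnk : RnkStmt := Pool.Agent.PCL.H14.rnk qlm
theorem mom : MomStmt :=
  Pool.Agent.PCL.H94.mom Pool.Agent.PCL.H88.vdm Pool.Agent.PCL.H13.crc Pool.Agent.PCL.H13.esy
theorem bgp : BgpStmt := Pool.Agent.PCL.H34.bgp Pool.Agent.PCL.H88.vdm Pool.Agent.PCL.H13.crc
theorem ppw : PpwStmt := Pool.Agent.PCL.H39.ppw Pool.Agent.PCL.H88.vdm Pool.Agent.PCL.H13.crc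
theorem ari : AriStmt := Pool.Agent.PCL.H19.ari mom bgp ppw
theorem kap : KapStmt :=
  Pool.Agent.PCL.H81.kap Pool.Agent.PCL.H39.fac Pool.Agent.PCL.H50.idx Pool.Agent.PCL.H50.low
    Pool.Agent.PCL.H92.prm Pool.Agent.PCL.H16.ply Pool.Agent.PCL.H90.arc ari
    Pool.Agent.PCL.H70.ctn
theorem pth : PthStmt :=
  Pool.Agent.PCL.H82.pth cnt lnp rnk Pool.Agent.PCL.H50.cra Pool.Agent.PCL.H86.dtm kap
    Pool.Agent.PCL.H98.ptp
theorem sc2 : Sc2Stmt := Pool.Agent.PCL.H46.sc2 cnt qlm Pool.Agent.PCL.H78.rep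
theorem mn2 : Mn2Stmt :=
  Pool.Agent.PCL.H3.mn2 sc2 Pool.Agent.PCL.H45.rst Pool.Agent.PCL.H21.ext pth
    Pool.Agent.PCL.H55.gap
theorem fi2 : Fi2Stmt :=
  Pool.Agent.PCL.H19.F2.fi2 cnt Pool.Agent.PCL.H51.dst mn2 Pool.Agent.PCL.H55.pig

end Pool.Agent.PCL.Asm
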