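import Mathlib

/-!
Squad PCL (MP_1fc801_co): dense subsets of generalized arithmetic progressions with few distinct
distances have a line with almost `sqrt n` points.  Definitions and first facts.
-/

set_option autoImplicit false

namespace Pool.Agent.PCL

/-- the point of the plane with the integer coordinates `x` with respect to `g` -/
noncomputable def pt {ι : Type} [Fintype ι] (g : ι → ℂ) (x : ι → ℤ) : ℂ := ∑ i, (x i : ℂ) * g i

/-- `x` lies in the box with the half sides `r * N i` -/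
def InB {ι : Type} (N : ι → ℕ) (r : ℝ) (x : ι → ℤ) : Prop := ∀ i, |(x i : ℝ)| ≤ r * N i

/-- the integer points of the box with the half sides `r * N i` -/
noncomputable def bx {ι : Type} [Fintype ι] [DecidableEq ι] (N : ι → ℕ) (r : ℝ) :
    Finset (ι → ℤ) :=
  Fintype.piFinset fun i => Finset.Icc (-⌊r * N i⌋) ⌊r * N i⌋

theorem mem_bx {ι : Type} [Fintype ι] [DecidableEq ι] {N : ι → ℕ} {r : ℝ} {x : ι → ℤ} :
    x ∈ bx N r ↔ InB N r x := by
  unfold bx InB
  rw [Fintype.mem_piFinset]
  refine forall_congr' fun i => ?_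
  rw [Finset.mem_Icc, abs_le, neg_le, Int.le_floor, Int.le_floor, neg_le (a := r * (N i : ℝ))]
  push_cast
  exact and_congr Iff.rfl Iff.rfl

theorem pt_add {ι : Type} [Fintype ι] (g : ι → ℂ) (x y : ι → ℤ) :
    pt g (x + y) = pt g x + pt g y := by
  unfold pt
  rw [← Finset.sum_add_distrib]
  refine Finset.sum_congr rfl fun i _ => ?_
  simp only [Pi.add_apply, Int.cast_add]
  ring

theorem pt_smul {ι : Type} [Fintype ι] (g : ι → ℂ) (c : ℤ) (x : ι → ℤ) :
    pt g (c • x) = c * pt g x := by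
  unfold pt
  rw [Finset.mul_sum]
  refine Finset.sum_congr rfl fun i _ => ?_
  simp only [Pi.smul_apply, smul_eq_mul, Int.cast_mul]
  ring

theorem pt_neg {ι : Type} [Fintype ι] (g : ι → ℂ) (x : ι → ℤ) : pt g (-x) = -pt g x := by
  have h := pt_smul g (-1) x
  simpa using h

theorem pt_sub {ι : Type} [Fintype ι] (g : ι → ℂ) (x y : ι → ℤ) :
    pt g (x - y) = pt g x - pt g y := by
  rw [sub_eq_add_neg, pt_add, pt_neg, ← sub_eq_add_neg]

@[simp] theorem pt_zero {ι : Type} [Fintype ι] (g : ι → ℂ) : pt g 0 = 0 := by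
  unfold pt
  simp

/-- `pt g` is injective if `g` is linearly independent over the rationals -/
theorem pt_eq_zero {ι : Type} [Fintype ι] {g : ι → ℂ} (hg : LinearIndependent ℚ g) {x : ι → ℤ}
    (h : pt g x = 0) : x = 0 := by
  rw [Fintype.linearIndependent_iff] at hg
  have := hg (fun i => (x i : ℚ)) (by
    rw [← h]
    unfold pt
    refine Finset.sum_congr rfl fun i _ => ?_
    rw [Algebra.smul_def]
    simp)
  funext i
  have h2 := this i
  simpa using h2

/-- the coordinate vectors of the points on the real line through `0` and `e` -/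
def Lat {ι : Type} [Fintype ι] (g : ι → ℂ) (e : ℂ) : Submodule ℤ (ι → ℤ) where
  carrier := {x | ∃ t : ℝ, pt g x = t * e}
  zero_mem' := ⟨0, by simp⟩
  add_mem' := by
    rintro x y ⟨s, hs⟩ ⟨t, ht⟩
    exact ⟨s + t, by rw [pt_add, hs, ht]; push_cast; ring⟩
  smul_mem' := by
    rintro c x ⟨t, ht⟩
    exact ⟨c * t, by rw [pt_smul, ht]; push_cast; ring⟩

theorem mem_Lat {ι : Type} [Fintype ι] {g : ι → ℂ} {e : ℂ} {x : ι → ℤ} :
    x ∈ Lat g e ↔ ∃ t : ℝ, pt g x = t * e := Iff.rfl

/-- `Lat g e` is saturated -/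
theorem Lat_sat {ι : Type} [Fintype ι] {g : ι → ℂ} {e : ℂ} {c : ℤ} (hc : c ≠ 0) {x : ι → ℤ}
    (h : c • x ∈ Lat g e) : x ∈ Lat g e := by
  obtain ⟨t, ht⟩ := h
  refine ⟨t / c, ?_⟩
  rw [pt_smul] at ht
  have hc' : (c : ℂ) ≠ 0 := by exact_mod_cast hc
  push_cast
  field_simp
  rw [← ht]
  ring

/-- the lattices of two different lines intersect in `0` -/
theorem Lat_disj {ι : Type} [Fintype ι] {g : ι → ℂ} (hg : LinearIndependent ℚ g) {e e' : ℂ}
    (h : ∀ t : ℝ, e' ≠ t * e) : Disjoint (Lat g e) (Lat g e') := by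
  rw [Submodule.disjoint_def]
  rintro x ⟨s, hs⟩ ⟨t, ht⟩
  by_cases h0 : t = 0
  · apply pt_eq_zero hg
    rw [ht, h0]
    simp
  · exfalso
    apply h (s / t)
    have h0' : (t : ℂ) ≠ 0 := by exact_mod_cast h0
    push_cast
    field_simp
    rw [← hs, ht]
    ring

open Classical in
/-- the number of the points of `L` in the box -/
noncomputable def cnt {ι : Type} [Fintype ι] [DecidableEq ι] (L : Submodule ℤ (ι → ℤ))
    (N : ι → ℕ) (r : ℝ) : ℕ :=
  ((bx N r).filter fun x => x ∈ L).card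

/-- `z` and `w` are orthogonal (`0` is orthogonal to everything) -/
def Perp (z w : ℂ) : Prop := (z * (starRingEnd ℂ) w).re = 0

open Classical in
/-- the number of the orthogonal pairs of the box -/
noncomputable def prp {ι : Type} [Fintype ι] [DecidableEq ι] (g : ι → ℂ) (N : ι → ℕ) (r : ℝ) : ℕ :=
  ((bx N r ×ˢ bx N r).filter fun p => Perp (pt g p.1) (pt g p.2)).card

open Classical in
/-- the number of the distinct distances of `P` -/
noncomputable def nd (P : Finset ℂ) : ℕ := (P.offDiag.image fun p => dist p.1 p.2).card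

/-- the minor of the rows `s` of the matrix with the columns `b j` -/
def mn {ι : Type} {m : ℕ} (b : Fin m → ι → ℤ) (s : Fin m → ι) : ℤ :=
  (Matrix.of fun i j => b j (s i)).det

/-- the polynomial whose value at `a` is the minor of the rows `s` of the matrix with the columns
`X j + a Y j` -/
noncomputable def pf {ι : Type} {m : ℕ} (X Y : Fin m → ι → ℤ) (s : Fin m → ι) : Polynomial ℤ :=
  (Matrix.of fun i j => Polynomial.C (X j (s i)) + Polynomial.X * Polynomial.C (Y j (s i))).det

/-- a family of short vectors `v` with rich lines: `v` has norm at most `2 ε`, no other nonzero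
vector on the line of `v` has norm at most `ε`, the lines are different and rich -/
structure Fam {ι : Type} [Fintype ι] [DecidableEq ι] (g : ι → ℂ) (N : ι → ℕ) (ε τ R : ℝ)
    (T : Finset (ι → ℤ)) : Prop where
  inb : ∀ v ∈ T, InB N (2 * ε) v
  nz : ∀ v ∈ T, v ≠ 0
  ncol : ∀ v ∈ T, ∀ v' ∈ T, v ≠ v' → ∀ t : ℝ, pt g v' ≠ t * pt g v
  mini : ∀ v ∈ T, ∀ z ∈ Lat g (pt g v), InB N ε z → z = 0
  rich : ∀ v ∈ T, τ * ∏ i, (N i : ℝ) ≤ (cnt (Lat g (pt g v)) N R : ℝ) ^ 2 * (bx N ε).card

/-- a family of integer polynomials of degree at most `m` without a common prime factor of all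
coefficients -/
structure Prim {σ : Type} (m : ℕ) (f : σ → Polynomial ℤ) : Prop where
  deg : ∀ s, (f s).natDegree ≤ m
  prm : ∀ p : ℕ, p.Prime → ∃ s k, ¬ (p : ℤ) ∣ (f s).coeff k

/-- `X`, `Y` are integer vectors with `pt g (X j) = θ j * pt g w` and `pt g (Y j) = θ j * pt g e`
for rationally independent real numbers `θ j` -/
structure Pen {ι : Type} [Fintype ι] (g : ι → ℂ) {m : ℕ} (w e : ι → ℤ) (X Y : Fin m → ι → ℤ)
    (θ : Fin m → ℝ) : Prop where
  hX : ∀ j, pt g (X j) = θ j * pt g w
  hY : ∀ j, pt g (Y j) = θ j * pt g e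
  ind : LinearIndependent ℚ θ

end Pool.Agent.PCL
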