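import Pool.Agent.PCL.Defs

/-!
Squad PCL (MP_1fc801_co, weight 1): statements of the rows, complete proofs in the docstrings.

THEOREM (`FinStmt`).  For all `d`, `K` there are `c > 0`, `C`, `n₀`: if `g_1, ..., g_d ∈ ℂ` are
linearly independent over `ℚ`, `P ⊂ a + {∑ x_i g_i : |x_i| ≤ N_i}`, `n = |P| ≥ n₀`,
`∏ (2 N_i + 1) ≤ K n` and `P` has at most `c n / log log n` distinct distances, then some line
contains at least `√n exp (-C (log log n)²)` points of `P`.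

All sides `N i` are at least `1` in the rows; `‖x‖` means the box norm `max |x_i| / N_i`, so `InB N r x`
is `‖x‖ ≤ r`; `D` is `Fintype.card ι`; `L_v = Lat g (pt g v)`; `B = bx N 1`.
-/

set_option autoImplicit false

namespace Pool.Agent.PCL

/-- ROW CNT (easy).  Number of the points of a box: `∏ (2 ⌊r N_i⌋ + 1)` (`Fintype.card_piFinset`,
`Int.card_Icc`); `2 ⌊2 t⌋ + 1 ≤ 3 (2 ⌊t⌋ + 1)` because `⌊2 t⌋ ≤ 2 ⌊t⌋ + 1`; `⌊t⌋ ≤ t`. -/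
def CntStmt : Prop :=
  ∀ (ι : Type) [Fintype ι] [DecidableEq ι] (N : ι → ℕ) (r : ℝ), 0 ≤ r →
    ((bx N r).card = ∏ i, (2 * ⌊r * N i⌋₊ + 1)) ∧
    (((bx N (2 * r)).card : ℝ) ≤ 3 ^ Fintype.card ι * (bx N r).card) ∧
    (((bx N r).card : ℝ) ≤ ∏ i, (2 * (r * N i) + 1))

/-- ROW MDQ (easy-medium).  In a free abelian group `M` of finite rank a finite set `S`, no two
different elements of which differ by `q` times an element of `M`, has at most `q ^ rank M`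
elements.  PROOF.  Take a basis (`Module.finBasis ℤ M`), send `x ∈ S` to its coordinates modulo `q`
(`Fin (finrank ℤ M) → ZMod q`); the map is injective on `S`: if all coordinates of `x - y` are
divisible by `q` then `x - y = q z`.  The target has `q ^ finrank` elements. -/
def MdqStmt : Prop :=
  ∀ (M : Type) [AddCommGroup M] [Module.Free ℤ M] [Module.Finite ℤ M] (q : ℕ) (S : Finset M),
    0 < q → (∀ x ∈ S, ∀ y ∈ S, ∀ z : M, x - y = (q : ℤ) • z → x = y) →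
    S.card ≤ q ^ Module.finrank ℤ M

/-- ROW QFB (medium, uses MDQ).  `L`, `M` disjoint submodules of `ℤ^ι` without nonzero vectors of norm
`≤ ε`; `S` a set of pairs `(x, y)`, `x ∈ L`, `y ∈ M` of norm `≤ R`, such that `x + y` has the same
coordinates outside `J` for all pairs of `S`.  Then `|S| ≤ (3R/ε)^|J|`, and if a linear form `c` which
is not zero on some coordinate of `J` vanishes on `L` and on `M` then `|S| ≤ ε (3R/ε)^|J|`.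
PROOF.  Let `Λ` be the submodule of the `(x, y) ∈ L × M` with `(x + y)_i = 0` for `i ∉ J`.  The map
`(x, y) ↦ (x + y)` restricted to `J` is injective on `Λ` (if `x + y = 0` then `x = -y ∈ L ∩ M = 0`), so
`rank Λ ≤ |J|`; in the second case the image lies in the kernel of the nonzero form `c|J` on `ℤ^J`
(because `∑ c_i (x+y)_i = 0` and `x + y` vanishes outside `J`), so `rank Λ ≤ |J| - 1`.  Fix an element
`s₀` of `S` (S nonempty) and translate: `S - s₀ ⊂ Λ`.  Let `q = ⌈2R/ε⌉`, so `q ≤ 3R/ε` (as `ε ≤ R`).  If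
`(x, y) - (x', y') = q (x'', y'')` with `(x'', y'') ∈ Λ` then `|x''_i| ≤ 2R N_i / q ≤ ε N_i`, so `x'' = 0`,
and `y'' = 0`.  By MDQ `|S| ≤ q^rank Λ`; `(3R/ε)^(|J|-1) ≤ ε (3R/ε)^|J|` since `3R ≥ 1`. -/
def QfbStmt : Prop :=
  ∀ (ι : Type) [Fintype ι] [DecidableEq ι] (N : ι → ℕ) (L M : Submodule ℤ (ι → ℤ)) (ε R : ℝ)
    (J : Finset ι) (S : Finset ((ι → ℤ) × (ι → ℤ))),
    (∀ i, 1 ≤ N i) → Disjoint L M → 0 < ε → ε ≤ R → 1 ≤ R →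
    (∀ x ∈ L, InB N ε x → x = 0) → (∀ x ∈ M, InB N ε x → x = 0) →
    (∀ p ∈ S, p.1 ∈ L ∧ p.2 ∈ M ∧ InB N R p.1 ∧ InB N R p.2) →
    (∀ p ∈ S, ∀ p' ∈ S, ∀ i, i ∉ J → p.1 i + p.2 i = p'.1 i + p'.2 i) →
    (S.card : ℝ) ≤ (3 * R / ε) ^ J.card ∧
    ∀ c : ι → ℤ, (∃ i ∈ J, c i ≠ 0) → (∀ x ∈ L, ∑ i, c i * x i = 0) →
      (∀ x ∈ M, ∑ i, c i * x i = 0) → (S.card : ℝ) ≤ ε * (3 * R / ε) ^ J.card

/-- ROW QLM (medium, uses QFB).  Key counting lemma: `|L ∩ RB| |M ∩ RB| |εB| ≤ (9R)^D ∏ N_i`, with an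
additional factor `θ` if some nonzero linear form vanishes on `L` and `M`.
PROOF.  `J = {i : 1 ≤ ε N_i}`.  Map the pair `(x, y) ∈ (L ∩ RB) × (M ∩ RB)` to the coordinates of
`x + y` outside `J`, integers of absolute value `≤ 2 R N_i`: at most `∏_(i ∉ J) (4 R N_i + 1) ≤
∏_(i ∉ J) 5 R N_i` values; each fibre has at most `(3R/ε)^|J|` elements by QFB.  And
`|εB| = ∏ (2 ⌊ε N_i⌋ + 1) ≤ ∏_(i ∈ J) 3 ε N_i` (the factor is `1` for `i ∉ J`).  Product: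
`∏_(i ∉ J) 5 R N_i * ∏_(i ∈ J) (3R/ε) (3 ε N_i) ≤ (9R)^D ∏ N_i`.  With the form `c`: if `c` is not zero on
`J` the fibres have the additional factor `ε ≤ θ`; if `c` is zero on `J`, choose `i₀ ∉ J` with
`c_(i₀) ≠ 0`: `∑ c_i (x+y)_i = 0` determines the coordinate `i₀` from the other ones, the number of the
values is at most `∏_(i ∉ J, i ≠ i₀) 5 R N_i`, which is `≤ θ ∏_(i ∉ J) 5 R N_i` since `1/N_(i₀) ≤ θ`. -/
def QlmStmt : Prop :=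
  ∀ (ι : Type) [Fintype ι] [DecidableEq ι] (N : ι → ℕ) (L M : Submodule ℤ (ι → ℤ)) (ε R : ℝ),
    (∀ i, 1 ≤ N i) → Disjoint L M → 0 < ε → ε ≤ R → 1 ≤ R →
    (∀ x ∈ L, InB N ε x → x = 0) → (∀ x ∈ M, InB N ε x → x = 0) →
    ((cnt L N R : ℝ) * cnt M N R * (bx N ε).card ≤ (9 * R) ^ Fintype.card ι * ∏ i, (N i : ℝ)) ∧
    ∀ (c : ι → ℤ) (θ : ℝ), c ≠ 0 → (∀ x ∈ L, ∑ i, c i * x i = 0) →
      (∀ x ∈ M, ∑ i, c i * x i = 0) → ε ≤ θ → (∀ i, 1 / (N i : ℝ) ≤ θ) →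
      (cnt L N R : ℝ) * cnt M N R * (bx N ε).card ≤
        θ * ((9 * R) ^ Fintype.card ι * ∏ i, (N i : ℝ))

/-- ROW DST (easy-medium).  `|P|² ≤ (nd P + 1) #{(u, w) ∈ (4B)² : pt u ⊥ pt w}` for `P ⊂ a + pt (B)`.
PROOF.  Number of the quadruples `(p, q, p', q') ∈ P⁴` with `|p - q| = |p' - q'|`: Cauchy-Schwarz over the
`≤ nd P + 1` values of `|p - q|` (with the value 0) gives `|P|⁴ ≤ (nd P + 1) * quadruples`.  A quadruple
is determined by `(x, x', p, p')` where `x, x' ∈ 2B` are the coordinate vectors of `p - q` and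
`p' - q'`, so quadruples `≤ |P|² #{(x, x') ∈ (2B)² : |pt x| = |pt x'|}`, and `(x, x') ↦ (x - x', x + x')` is
injective into the orthogonal pairs of `(4B)²` (`Re ((z-z') conj (z+z')) = |z|² - |z'|²`).  Divide by
`|P|²` (P empty: trivial). -/
def DstStmt : Prop :=
  ∀ (ι : Type) [Fintype ι] [DecidableEq ι] (g : ι → ℂ) (N : ι → ℕ) (a : ℂ) (P : Finset ℂ),
    LinearIndependent ℚ g → (∀ z ∈ P, ∃ x ∈ bx N 1, z = a + pt g x) →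
    ((P.card : ℝ)) ^ 2 ≤ ((nd P : ℝ) + 1) * prp g N 4

/-- ROW REP (medium).  Representatives of the pairs of orthogonal lines.
PROOF.  On the nonzero vectors of `4B` take the equivalence relation `u ~ u'` iff
`pt u' ∈ ℝ pt u ∪ ℝ I pt u` (with `pt u ≠ 0`), and for every class an element `v` of least norm
`max |v_i| / N_i` (`Finset.exists_min_image`).  Third property: if `z ≠ 0` lies on the line of `v` or on
the orthogonal one and `‖z‖ ≤ r`: if `r ≥ 4` then `‖v‖ ≤ 4 ≤ r`; if `r < 4` then `z ∈ 4B` is in the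
class of `v`, so `‖v‖ ≤ ‖z‖ ≤ r`.  Fourth: the orthogonal pairs `(u, w)` with `u = 0` or `w = 0` are at most
`2 |4B|`; for `u, w ≠ 0` let `v` be the representative of `u`: then `(u, w) ∈ L_v × L_v^⊥` or
`(u, w) ∈ L_v^⊥ × L_v`, where `L_v^⊥ = Lat g (I pt v)`. -/
def RepStmt : Prop :=
  ∀ (ι : Type) [Fintype ι] [DecidableEq ι] (g : ι → ℂ) (N : ι → ℕ),
    (∀ i, 1 ≤ N i) → LinearIndependent ℚ g →
    ∃ V : Finset (ι → ℤ),
      (∀ v ∈ V, v ≠ 0 ∧ InB N 4 v) ∧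
      (∀ v ∈ V, ∀ v' ∈ V, v ≠ v' → ∀ t : ℝ, pt g v' ≠ t * pt g v ∧
        pt g v' ≠ t * (Complex.I * pt g v)) ∧
      (∀ v ∈ V, ∀ z, z ≠ 0 → (z ∈ Lat g (pt g v) ∨ z ∈ Lat g (Complex.I * pt g v)) →
        ∀ r : ℝ, InB N r z → InB N r v) ∧
      (prp g N 4 : ℝ) ≤ 2 * (bx N 4).card + 2 * ∑ v ∈ V,
        (cnt (Lat g (pt g v)) N 4 : ℝ) * cnt (Lat g (Complex.I * pt g v)) N 4

/-- ROW SCL (medium-strong, uses CNT QLM REP).  Scale selection.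
PROOF.  `V` from REP, `T(v) = cnt L_v * cnt L_v^⊥` (radius 4).  For `v ∈ V` let `j` be the natural number with
`‖v‖ ≤ 2^(2-j)`, not `‖v‖ ≤ 2^(1-j)`; `j ≤ Λ` since `v ≠ 0` and `4 N_i ≤ 2^Λ`.  `V_j` = these `v`,
`ε = 2^(1-j)`.  QLM (`R = 4`, `L_v`, `L_v^⊥` are disjoint by `Lat_disj`, no nonzero vectors of norm `≤ ε` by
the third property) gives `T(v) |εB| ≤ 36^D ∏ N`; `|V_j| ≤ |2εB| ≤ 3^D |εB|`.  So
`S_j = ∑_(V_j) T(v) ≤ 108^D ∏ N`.  With `β = 1/(Λ+1)`: `prp ≤ 2 * 9^D ∏ N + 2 ∑_(j ≤ Λ) S_j`; the part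
`j < j₀` is `≤ 2 j₀ 108^D ∏ N`; if all `S_j < β ∏ N` for `j₀ ≤ j ≤ Λ` then
`prp < (2 * 9^D + 2 j₀ 108^D + 2) ∏ N`, a contradiction for `C ≥ 6 * 108^D`.  So some `j ≥ j₀` has
`S_j ≥ β ∏ N`.  Let `τ₀ = β/(2 * 108^D)` and `T₀ = {v ∈ V_j : T(v) |εB| ≥ τ₀ 36^D ∏ N}`; the other `v`
contribute at most `|V_j| τ₀ 36^D ∏ N / |εB| ≤ β ∏ N / 2`, so `∑_(T₀) T(v) ≥ β ∏ N / 2` and
`|T₀| ≥ β |εB| / (2 * 36^D)` and `T₀` is not empty.  If `|εB| ≤ 4 * 36^D (Λ+1)`: for `v ∈ T₀` one of the two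
counts has square `≥ T(v) ≥ τ₀ 36^D ∏ N / |εB|`: first alternative.  Otherwise: for `v ≠ v'` in `T₀` QLM for
`L_v^⊥`, `L_v'^⊥` shows that at most one `v ∈ T₀` has `(cnt L_v^⊥)² |εB| > 36^D ∏ N`; remove it:
`|T| ≥ |T₀| - 1 ≥ β |εB| / (4 * 36^D)`; for `v ∈ T`:
`(cnt L_v)² |εB| = (T(v) |εB|)² / ((cnt L_v^⊥)² |εB|) ≥ τ₀² 36^D ∏ N`. -/
def SclStmt : Prop :=
  ∀ D : ℕ, ∃ C : ℝ, 1 ≤ C ∧ ∀ (ι : Type) [Fintype ι] [DecidableEq ι] (g : ι → ℂ) (N : ι → ℕ)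
    (Λ j₀ : ℕ), Fintype.card ι = D → (∀ i, 1 ≤ N i) → LinearIndependent ℚ g →
    (∀ i, 4 * N i ≤ 2 ^ Λ) → 1 ≤ j₀ → C * j₀ * ∏ i, (N i : ℝ) ≤ prp g N 4 →
    (∃ e : ℂ, e ≠ 0 ∧
      ∏ i, (N i : ℝ) ≤ C * ((Λ : ℝ) + 1) ^ 2 * (cnt (Lat g e) N 4 : ℝ) ^ 2) ∨
    ∃ (ε : ℝ) (T : Finset (ι → ℤ)), 0 < ε ∧ ε ≤ 2 / 2 ^ j₀ ∧
      Fam g N ε (1 / (C * ((Λ : ℝ) + 1) ^ 2)) 4 T ∧
      ((bx N ε).card : ℝ) ≤ C * ((Λ : ℝ) + 1) * T.card

/-- ROW RST (medium).  Restriction to the coordinates with `p i`.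
PROOF.  For `v ∈ T` and `i` without `p i`: `|v_i| ≤ 2 ε N_i < 1`, so `v_i = 0`.  `T'` = the restrictions (the
map is injective on `T`); `pt` of the restriction is `pt g v`; extension by zero maps the lattice
`Lat g' e` of the restricted family into `Lat g e` and preserves norms: gives `inb nz ncol mini`.
`|εB'| = |εB|`, because the coordinates without `p` of a vector of `εB` are `0`.  Richness: group the points
of `L_v ∩ 4B` by their coordinates without `p`, integers with `|x_i| ≤ 4 N_i`, at most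
`∏_(¬p) (8 N_i + 1) ≤ ∏_(¬p) 9 N_i` groups; some group has at least `cnt / ∏ 9 N_i` elements; subtract one of
its elements from all of them: vectors of `L_v` with zero coordinates without `p` and of norm `≤ 8`.
So `(cnt')² |εB| ≥ τ ∏ N / ∏_(¬p) 81 N_i² = τ ∏_p N / ∏_(¬p) 81 N_i`. -/
def RstStmt : Prop :=
  ∀ (ι : Type) [Fintype ι] [DecidableEq ι] (g : ι → ℂ) (N : ι → ℕ) (ε τ : ℝ)
    (T : Finset (ι → ℤ)) (p : ι → Prop) [DecidablePred p],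
    (∀ i, 1 ≤ N i) → LinearIndependent ℚ g → 0 < ε → 0 < τ → Fam g N ε τ 4 T →
    (∀ i, ¬ p i → 2 * ε * N i < 1) →
    ∃ T' : Finset ({i // p i} → ℤ), T'.card = T.card ∧
      (bx (fun i : {i // p i} => N i) ε).card = (bx N ε).card ∧
      Fam (fun i : {i // p i} => g i) (fun i : {i // p i} => N i) ε
        (τ / ∏ i ∈ Finset.univ.filter (fun i => ¬ p i), (81 * (N i : ℝ))) 8 T'

/-- ROW EXT (easy).  Extension by zero is injective from `Lat g' e` to `Lat g e` and preserves the box. -/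
def ExtStmt : Prop :=
  ∀ (ι : Type) [Fintype ι] [DecidableEq ι] (g : ι → ℂ) (N : ι → ℕ) (p : ι → Prop)
    [DecidablePred p] (e : ℂ) (r : ℝ), 0 ≤ r →
    cnt (Lat (fun i : {i // p i} => g i) e) (fun i : {i // p i} => N i) r ≤ cnt (Lat g e) N r

/-- ROW LNP (easy-medium, uses CNT).  Some line in the direction of the coordinate `i₁` contains many
elements of `T`.  PROOF.  `R = ⌊2 ε N_(i₁)⌋`; `2εB` is the disjoint union of the sets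
`{w + a e : |a| ≤ R}`, `e = Pi.single i₁ 1`, `w ∈ 2εB` with `w_(i₁) = 0`; their number is
`|2εB| / (2R+1) ≤ 3^D |εB| / (2R+1)`, so one of them contains at least
`|T| (2R+1) / (3^D |εB|) ≥ δ (2R+1) / 3^D` elements of `T`. -/
def LnpStmt : Prop :=
  ∀ (ι : Type) [Fintype ι] [DecidableEq ι] (N : ι → ℕ) (ε δ : ℝ) (T : Finset (ι → ℤ)) (i₁ : ι),
    0 < ε → 0 < δ → (∀ v ∈ T, InB N (2 * ε) v) → δ * (bx N ε).card ≤ T.card →
    ∃ (w : ι → ℤ) (A : Finset ℤ), (∀ a ∈ A, |a| ≤ (⌊2 * ε * N i₁⌋₊ : ℤ)) ∧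
      (∀ a ∈ A, w + a • (Pi.single i₁ (1 : ℤ) : ι → ℤ) ∈ T) ∧
      δ / 3 ^ Fintype.card ι * (2 * (⌊2 * ε * N i₁⌋₊ : ℝ) + 1) ≤ A.card

/-- ROW RNK (medium, uses QLM).  The ranks.
PROOF.  For `v ∈ T` let `M_v` be the `ℤ`-span of `L_v ∩ 8B` (so `cnt M_v N 8 = cnt L_v N 8`, as
`M_v ⊂ L_v`).  For `v ≠ v'` in `T`: `L_v`, `L_v'` are disjoint (`Lat_disj`).  If
`rank M_v + rank M_v' < D` there is a nonzero integer form `c` vanishing on both (the span of `M_v + M_v'` in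
`ℚ^ι` is a proper subspace; clear denominators).  QLM (second part, `R = 8`) with
`θ = max (ε, max 1/N_i)` gives `cnt cnt' |εB| ≤ θ 72^D ∏ N`; but `rich` gives
`(cnt cnt' |εB|)² ≥ (τ ∏ N)²`; so `τ ≤ 72^D θ`, contradiction.  So `rank M_v + rank M_v' = D` for all
`v ≠ v'`; with three elements all ranks are equal to some `m`, `D = 2m`; `m ≥ 1` (otherwise `D = 0` and there
is no nonzero `v`).  `rank L_v ≤ D - rank M_v' = m` (`L_v ∩ M_v' = 0`), so `rank L_v = m`.  The generating set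
`L_v ∩ 8B` of `M_v` contains `m` linearly independent vectors. -/
def RnkStmt : Prop :=
  ∀ (ι : Type) [Fintype ι] [DecidableEq ι] (g : ι → ℂ) (N : ι → ℕ) (ε τ : ℝ)
    (T : Finset (ι → ℤ)), (∀ i, 1 ≤ N i) → LinearIndependent ℚ g → 0 < ε → ε ≤ 1 →
    Fam g N ε τ 8 T → 72 ^ Fintype.card ι * ε < τ → (∀ i, 72 ^ Fintype.card ι < τ * N i) →
    3 ≤ T.card →
    ∃ m : ℕ, 1 ≤ m ∧ Fintype.card ι = 2 * m ∧ ∀ v ∈ T,
      Module.finrank ℤ (Lat g (pt g v)) = m ∧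
      ∃ u : Fin m → ι → ℤ, LinearIndependent ℤ u ∧
        ∀ k, u k ∈ Lat g (pt g v) ∧ InB N 8 (u k)

/-- ROW CRA (strong).  The pencil: three rich lines `w + a_j e` give common multipliers.
PROOF.  Write `z` for `pt g z`.  `D = 2m`.  Let `b_k` (in the lattice of `w + a_0 e`), `b'_k` (`w + a_1 e`),
`u_k` (`w + a_2 e`) be the given vectors.  The `2m` vectors `b_k, b'_k` are independent (the two lattices
are disjoint because `w`, `e` are real-independent and `a_0 ≠ a_1`), so `Δ = det [b | b'] ≠ 0`,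
`|Δ| ≤ (2m)! H^(2m)`, and by Cramer `Δ u_k = z_k + z'_k`, `z_k = ∑ c_j b_j`, `z'_k = ∑ c'_j b'_j` with integers
`|c_j|, |c'_j| ≤ (2m)! H^(2m)`; so the entries of `z_k`, `z'_k` are at most `m (2m)! H^(2m+1)`.  Let
`u_k = φ_k (w + a_2 e)`, `z_k = α_k (w + a_0 e)`, `z'_k = β_k (w + a_1 e)` (as complex numbers; `φ, α, β` real).
Then `α_k + β_k = Δ φ_k`, `a_0 α_k + a_1 β_k = a_2 Δ φ_k`, so
`(a_0 - a_1) α_k = (a_2 - a_1) Δ φ_k`, `(a_0 - a_1) β_k = (a_0 - a_2) Δ φ_k`.  Put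
`Z_k = (a_0 - a_2)(a_0 - a_1) z_k`, `Z'_k = (a_2 - a_1)(a_0 - a_1) z'_k`, `ψ_k = (a_2 - a_1)(a_0 - a_2) Δ φ_k`:
`Z_k = ψ_k (w + a_0 e)`, `Z'_k = ψ_k (w + a_1 e)`.  `Y_k = Z_k - Z'_k`, `X_k = (a_0 - a_1) Z_k - a_0 Y_k`,
`θ_k = (a_0 - a_1) ψ_k`: then `Y_k = θ_k e`, `X_k = θ_k w`.  Entries: `|Z_k| ≤ 4 m (2m)! H^(2m+3)`,
`|Y_k| ≤ 8 m (2m)! H^(2m+3)`, `|X_k| ≤ 2H |Z_k| + H |Y_k| ≤ 16 m (2m)! H^(2m+4)`.  Independence: if
`∑ r_k θ_k = 0` (rational `r_k`, clear denominators) then `∑ r_k φ_k = 0`, so `pt (∑ r_k u_k) = 0`, so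
`∑ r_k u_k = 0`, so `r = 0`. -/
def CraStmt : Prop :=
  ∀ (ι : Type) [Fintype ι] [DecidableEq ι] (g : ι → ℂ) (m : ℕ) (w e : ι → ℤ) (a : Fin 3 → ℤ)
    (H : ℕ), LinearIndependent ℚ g → 1 ≤ H → Fintype.card ι = 2 * m → Function.Injective a →
    pt g e ≠ 0 → (∀ t : ℝ, pt g w ≠ t * pt g e) → (∀ j, |a j| ≤ (H : ℤ)) →
    (∀ j, ∃ u : Fin m → ι → ℤ, LinearIndependent ℤ u ∧
      ∀ k, u k ∈ Lat g (pt g (w + a j • e)) ∧ ∀ i, |u k i| ≤ (H : ℤ)) →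
    ∃ (X Y : Fin m → ι → ℤ) (θ : Fin m → ℝ), Pen g w e X Y θ ∧
      ∀ j i, |X j i| ≤ ((16 * m * (2 * m).factorial * H ^ (2 * m + 4) : ℕ) : ℤ) ∧
        |Y j i| ≤ ((16 * m * (2 * m).factorial * H ^ (2 * m + 4) : ℕ) : ℤ)

/-- ROW DTM (medium).  The determinant of the pencil.
PROOF.  Choose `Fin m ⊕ Fin m ≃ ι`.  `Δ = det [X | Y]` (rows `ι`).  `Δ ≠ 0`: if `∑ r_j X_j + ∑ r'_j Y_j = 0`
(integers) then `(∑ r_j θ_j) pt w + (∑ r'_j θ_j) pt e = 0`, both real coefficients are `0` (`pt w`, `pt e` are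
real-independent), so `r = r' = 0` by the independence of `θ`.  `|Δ| ≤ (2m)! B^(2m)`
(`Matrix.det_le` or the Leibniz sum).  If `X_j + a Y_j = ∑_k G_kj b_k` then (column operations)
`Δ = det [X + aY | Y] = det ([b | Y] * fromBlocks G 0 0 1) = det [b | Y] * det G`. -/
def DtmStmt : Prop :=
  ∀ (ι : Type) [Fintype ι] [DecidableEq ι] (g : ι → ℂ) (m : ℕ) (w e : ι → ℤ)
    (X Y : Fin m → ι → ℤ) (θ : Fin m → ℝ) (B : ℕ), LinearIndependent ℚ g →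
    Fintype.card ι = 2 * m → pt g e ≠ 0 → (∀ t : ℝ, pt g w ≠ t * pt g e) → Pen g w e X Y θ →
    (∀ j i, |X j i| ≤ (B : ℤ) ∧ |Y j i| ≤ (B : ℤ)) →
    ∃ Δ : ℤ, Δ ≠ 0 ∧ |Δ| ≤ (((2 * m).factorial * B ^ (2 * m) : ℕ) : ℤ) ∧
      ∀ (a : ℤ) (b : Fin m → ι → ℤ) (G : Matrix (Fin m) (Fin m) ℤ),
        (∀ j, X j + a • Y j = ∑ k, G k j • b k) → G.det ∣ Δ

/-- ROW FAC (easy).  Coordinates with respect to a basis of `L`: `G k j` = the coordinate `k` of `z j`;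
`mn z s = det (b_k (s_i)) det G` (`Matrix.det_mul`); if `det G = 0` then the `z_j` are dependent (there is a
nonzero integer vector in the kernel of `G`, `Matrix.exists_mulVec_eq_zero_iff`). -/
def FacStmt : Prop :=
  ∀ (ι : Type) (m : ℕ) (L : Submodule ℤ (ι → ℤ)) (b : Module.Basis (Fin m) ℤ L)
    (z : Fin m → ι → ℤ), (∀ j, z j ∈ L) →
    ∃ G : Matrix (Fin m) (Fin m) ℤ, (∀ j, z j = ∑ k, G k j • (b k : ι → ℤ)) ∧
      (∀ s : Fin m → ι, mn z s = mn (fun k => (b k : ι → ℤ)) s * G.det) ∧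
      (LinearIndependent ℤ z → G.det ≠ 0)

/-- ROW IDX (medium-strong).  A lattice with many points in the box has small minors.
PROOF.  We may assume `d = |mn b s| ≠ 0` (then `s` is injective and `π : x ↦ (x_(s i))_i` is injective on `L`;
`Γ = π(L) ⊂ ℤ^m` is the lattice generated by the columns of `A = (b_j (s_i))`, `ℤ^m / Γ` has `d` elements,
e.g. `Submodule.natAbs_det_equiv` or `Int.natAbs_det...`; or: `Γ ⊇ d ℤ^m` and Smith).  Let `γ_j = π(u_j)`,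
independent, `|γ_j(i)| ≤ r N_(s i)`.  Every `x ∈ ℤ^m` is congruent modulo `⟨γ⟩ ⊂ Γ` to a vector `x'` with
`|x'_i| ≤ m r N_(s i)`: write `x = ∑ t_j γ_j` with rational `t_j` and subtract `∑ ⌊t_j⌋ γ_j`.  Choose such a
representative `x'_c` for each of the `d` classes `c` of `ℤ^m / Γ`.  The map
`(c, x) ↦ x'_c + π(x)`, `x ∈ L ∩ rB`, is injective with values in the box of half sides
`(m+1) r N_(s i)`, which has at most `∏ (2 (m+1) r N_(s i) + 1) ≤ ∏ 3 (m+1) r N_(s i)` points. -/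
def IdxStmt : Prop :=
  ∀ (ι : Type) [Fintype ι] [DecidableEq ι] (N : ι → ℕ) (m : ℕ) (L : Submodule ℤ (ι → ℤ))
    (b : Module.Basis (Fin m) ℤ L) (s : Fin m → ι) (r : ℝ), (∀ i, 1 ≤ N i) → 1 ≤ r →
    (∃ u : Fin m → ι → ℤ, LinearIndependent ℤ u ∧ ∀ j, u j ∈ L ∧ InB N r (u j)) →
    |(mn (fun k => (b k : ι → ℤ)) s : ℝ)| * cnt L N r ≤
      (3 * ((m : ℝ) + 1) * r) ^ m * ∏ i, (N (s i) : ℝ)

/-- ROW LOW (medium-strong).  A lattice with small minors has many points in the box.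
PROOF.  `d = |mn b s| ≠ 0`, `s` injective, `Γ = π(L) ⊂ ℤ^m` has index `d` (as in IDX; only `≤ d` classes are
needed).  The `≥ ∏ N_(s i) / m` integer points of `∏ [0, ⌊N_(s i)/m⌋]` fall into `d` classes modulo `Γ`; one
class has `k ≥ ∏ N_(s i) / (m^m d)` points; subtract one of them: `k` points of `Γ` with
`|y_i| ≤ N_(s i)/m`, i.e. `k` elements `x ∈ L` with `|x_(s i)| ≤ N_(s i)/m`.  They lie in the box: for a
coordinate `j`, Cramer's rule gives `mn b s * x_j = ∑_i mn b (Function.update s i j) * x_(s i)` for `x ∈ L`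
(both sides are linear in `x`; or: `x = ∑ t_k b_k`, `t` from `(x_(s i)) = A t`), and the maximality of `s` says
`|mn b (update s i j)| N_(s i) ≤ |mn b s| N_j` (divide by the common product of the other factors), so
`|x_j| ≤ ∑_i (N_j / N_(s i)) (N_(s i)/m) = N_j`. -/
def LowStmt : Prop :=
  ∀ (ι : Type) [Fintype ι] [DecidableEq ι] (N : ι → ℕ) (m : ℕ) (L : Submodule ℤ (ι → ℤ))
    (b : Module.Basis (Fin m) ℤ L) (s : Fin m → ι), (∀ i, 1 ≤ N i) → 1 ≤ m →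
    mn (fun k => (b k : ι → ℤ)) s ≠ 0 →
    (∀ s' : Fin m → ι, |(mn (fun k => (b k : ι → ℤ)) s' : ℝ)| * ∏ i, (N (s i) : ℝ) ≤
      |(mn (fun k => (b k : ι → ℤ)) s : ℝ)| * ∏ i, (N (s' i) : ℝ)) →
    ∏ i, (N (s i) : ℝ) ≤
      (m : ℝ) ^ m * |(mn (fun k => (b k : ι → ℤ)) s : ℝ)| * cnt L N 1

/-- ROW PRM (medium).  The minors of a basis of a saturated lattice have no common prime factor.
PROOF.  The columns `b_k mod p` are linearly independent over `ZMod p`: if `∑ c_k b_k = p x`, then `x ∈ L`,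
`x = ∑ c'_k b_k`, so `c_k = p c'_k`.  A matrix over a field with `m` independent columns has a nonzero
`m × m` minor: the rows span `(ZMod p)^m` (`Matrix.rank`, row rank = column rank), choose `m` rows which
form a basis. -/
def PrmStmt : Prop :=
  ∀ (ι : Type) [Fintype ι] (m : ℕ) (L : Submodule ℤ (ι → ℤ)) (b : Module.Basis (Fin m) ℤ L)
    (p : ℕ), p.Prime → (∀ x : ι → ℤ, (p : ℤ) • x ∈ L → x ∈ L) →
    ∃ s : Fin m → ι, ¬ (p : ℤ) ∣ mn (fun k => (b k : ι → ℤ)) s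

/-- ROW PLY (easy).  `pf X Y s = det (C A + X • C B)`: `Polynomial.natDegree_det_X_add_C_le`,
`Polynomial.coeff_det_X_add_C_card`, evaluation is a ring homomorphism (`RingHom.map_det`). -/
def PlyStmt : Prop :=
  ∀ (ι : Type) (m : ℕ) (X Y : Fin m → ι → ℤ) (s : Fin m → ι),
    (pf X Y s).natDegree ≤ m ∧ (pf X Y s).coeff m = mn Y s ∧
    ∀ a : ℤ, (pf X Y s).eval a = mn (fun j => X j + a • Y j) s

/-- ROW ARC (medium).  A polynomial of degree `≤ m` with leading coefficient `c_m` is small only near few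
points.  PROOF.  If the set has more than `m η` elements, sort it, `a_0 < a_1 < ...`; the elements
`a_(kη)`, `k = 0..m`, are pairwise `≥ η` apart.  Lagrange (`Lagrange.coeff_eq_sum` or the like):
`c_m = ∑_k f(x_k) / ∏_(l ≠ k) (x_k - x_l)`, so `|c_m| ≤ ∑ |f(x_k)| / η^m < |c_m|`, a contradiction. -/
def ArcStmt : Prop :=
  ∀ (m : ℕ) (f : Polynomial ℤ) (A : Finset ℤ) (η : ℕ), 1 ≤ η → f.natDegree ≤ m →
    (∀ a ∈ A, ((m : ℝ) + 1) * |((f.eval a : ℤ) : ℝ)| < |(f.coeff m : ℝ)| * (η : ℝ) ^ m) →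
    A.card ≤ m * η

/-- ROW VDM (medium).  Solutions of `p^j ∣ f_s(a)` which are pairwise incongruent modulo `p^t`.
PROOF.  Suppose there are `m + 1` of them, `a_0, ..., a_m`.  `V` = Vandermonde matrix `(a_i^k)`,
`V * (coefficients of f_s) = (f_s(a_i))`, multiply by the adjugate: `det V * coeff_k f_s` is divisible by `p^j`
for all `s`, `k`; choose `s, k` with `p ∤ coeff`: `p^j ∣ det V = ∏_(i<l) (a_l - a_i)` (`Matrix.det_vandermonde`).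
Each of the `m(m+1)/2` factors is not divisible by `p^t`, so has valuation `≤ t - 1`, total
`≤ (t-1) m(m+1)/2 < j`, a contradiction. -/
def VdmStmt : Prop :=
  ∀ (m : ℕ) (σ : Type) (f : σ → Polynomial ℤ) (p j t : ℕ), p.Prime → 1 ≤ t →
    (t - 1) * (m * (m + 1) / 2) < j → (∀ s, (f s).natDegree ≤ m) →
    (∃ s k, ¬ (p : ℤ) ∣ (f s).coeff k) →
    ∀ A : Finset ℤ, (∀ a ∈ A, ∀ s, ((p : ℤ) ^ j) ∣ (f s).eval a) →
      (∀ a ∈ A, ∀ b ∈ A, (p : ℤ) ^ t ∣ a - b → a = b) → A.card ≤ m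

/-- ROW CRC (medium).  Chinese remainder count.  PROOF.  Send `a ∈ A` to its residues modulo the `q ∈ S`;
modulo one `q` there are at most `m` residues (choose one element of `A` for each residue), so at most
`m^|S|` values; two elements with the same value are congruent modulo `∏ q` (coprimality), and an interval
of `2R + 1` integers contains at most `(2R+1)/∏ q + 1` integers of one class. -/
def CrcStmt : Prop :=
  ∀ (m R : ℕ) (S : Finset ℕ) (A : Finset ℤ), (∀ q ∈ S, 0 < q) →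
    (∀ q ∈ S, ∀ q' ∈ S, q ≠ q' → Nat.Coprime q q') → (∀ a ∈ A, |a| ≤ (R : ℤ)) →
    (∀ q ∈ S, ∀ B ⊆ A, (∀ a ∈ B, ∀ b ∈ B, (q : ℤ) ∣ a - b → a = b) → B.card ≤ m) →
    (A.card : ℝ) ≤ (m : ℝ) ^ S.card * ((2 * (R : ℝ) + 1) / (∏ q ∈ S, (q : ℝ)) + 1)

/-- ROW ESY (easy-medium).  `k! e_k(w) ≤ (∑ w)^k`.  PROOF.  Induction on `T` or on `k`:
`(k+1) e_(k+1)(T) = ∑_(i ∈ T) w_i e_k(T \ i) ≤ (∑ w) e_k(T)`; or expand the power over functions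
`Fin k → T` and keep the injective ones. -/
def EsyStmt : Prop :=
  ∀ (T : Finset ℕ) (w : ℕ → ℝ) (k : ℕ), (∀ i ∈ T, 0 ≤ w i) →
    (k.factorial : ℝ) * ∑ S ∈ T.powersetCard k, ∏ i ∈ S, w i ≤ (∑ i ∈ T, w i) ^ k

/-- ROW MOM (medium, uses VDM CRC ESY).  Few `a` have many small primes dividing all `f_s(a)`.
PROOF.  `A` is covered by the sets `A_S = {a ∈ A : p ∣ f_s(a) for all s and p ∈ S}`, `S` running over the
`k`-element sets of primes `≤ y` (at most `y^k` of them).  By VDM (`j = t = 1`) and CRC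
`|A_S| ≤ m^k ((2R+1)/∏_S p + 1)`.  Sum with ESY: `∑_S ∏ 1/p ≤ (∑_(p ≤ y) 1/p)^k / k! ≤ (1 + log y)^k / k!`
(`∑_(n ≤ y) 1/n ≤ 1 + log y`, `harmonic_le_one_add_log`). -/
def MomStmt : Prop :=
  ∀ (m : ℕ) (σ : Type) (f : σ → Polynomial ℤ) (R y k : ℕ) (A : Finset ℤ), Prim m f →
    (∀ a ∈ A, |a| ≤ (R : ℤ)) → 1 ≤ m → 1 ≤ y →
    (∀ a ∈ A, ∃ S : Finset ℕ, S.card = k ∧ (∀ p ∈ S, p.Prime ∧ p ≤ y) ∧
      ∀ p ∈ S, ∀ s, (p : ℤ) ∣ (f s).eval a) →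
    (A.card : ℝ) ≤ (2 * (R : ℝ) + 1) * (((m : ℝ) * (1 + Real.log y)) ^ k / k.factorial) +
      ((m : ℝ) * y) ^ k

/-- ROW BGP (medium, uses VDM CRC).  Few `a` have a large common prime divisor of `Δ` and all `f_s(a)`.
PROOF.  `Δ` has at most `log₂ |Δ|` prime divisors; for each of them, `p > y`, VDM (`j = t = 1`) and CRC
(`S = {p}`) give at most `m ((2R+1)/p + 1) ≤ m ((2R+1)/y + 1)` elements. -/
def BgpStmt : Prop :=
  ∀ (m : ℕ) (σ : Type) (f : σ → Polynomial ℤ) (R y : ℕ) (Δ : ℤ) (A : Finset ℤ), Prim m f →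
    (∀ a ∈ A, |a| ≤ (R : ℤ)) → Δ ≠ 0 → 1 ≤ y →
    (∀ a ∈ A, ∃ p : ℕ, p.Prime ∧ y < p ∧ (p : ℤ) ∣ Δ ∧ ∀ s, (p : ℤ) ∣ (f s).eval a) →
    (A.card : ℝ) ≤ (m : ℝ) * Real.logb 2 |(Δ : ℝ)| * ((2 * (R : ℝ) + 1) / y + 1)

/-- ROW PPW (medium, uses VDM CRC).  Few `a` have a large prime power of a small prime dividing all
`f_s(a)`.  PROOF.  `M = m(m+1)/2 ≥ 1`.  For a prime `p ≤ y` let `j` be the least number with `p^j ≥ Z^M`
(`j ≥ 1` since `Z ≥ 2`) and `t = ⌈j/M⌉`, so `t ≥ 1`, `(t-1) M < j` and `p^(tM) ≥ p^j ≥ Z^M`, so `p^t ≥ Z`.  The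
`a ∈ A` belonging to `p` satisfy `p^j ∣ f_s(a)`; by VDM and CRC (`S = {p^t}`) there are at most
`m ((2R+1)/p^t + 1) ≤ m ((2R+1)/Z + 1)` of them; at most `y` primes. -/
def PpwStmt : Prop :=
  ∀ (m : ℕ) (σ : Type) (f : σ → Polynomial ℤ) (R y Z : ℕ) (A : Finset ℤ), Prim m f →
    (∀ a ∈ A, |a| ≤ (R : ℤ)) → 1 ≤ m → 2 ≤ Z →
    (∀ a ∈ A, ∃ p j : ℕ, p.Prime ∧ p ≤ y ∧ Z ^ (m * (m + 1) / 2) ≤ p ^ j ∧
      ∀ s, ((p : ℤ) ^ j) ∣ (f s).eval a) →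
    (A.card : ℝ) ≤ (y : ℝ) * ((m : ℝ) * ((2 * (R : ℝ) + 1) / Z + 1))

/-- ROW ARI (medium, uses MOM BGP PPW).  The arithmetic lemma.
PROOF.  `U = 2R+1`.  Remove from `A`: the `a` with a prime `p > y`, `p ∣ G a` (BGP: at most
`m log₂|Δ| (U/y + 1) ≤ δU/8 + δU/8`); the `a` with `p^v ∣ G a`, `p^v ≥ Z^M`, `p ≤ y` (PPW: at most
`y m (U/Z + 1) ≤ δU/8 + δU/8`); the `a` with at least `k` primes `p ≤ y` dividing `G a` (MOM: at most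
`δU/8 + δU/8`).  Together at most `3δU/4 < |A|`.  For a remaining `a`: `G a` is the product over its fewer
than `k` prime divisors (all `≤ y`) of `p^v < Z^M`, so `G a ≤ (Z^M)^k`
(`Nat.factorization_prod_pow_eq_self`). -/
def AriStmt : Prop :=
  ∀ (m : ℕ) (σ : Type) (f : σ → Polynomial ℤ) (R y Z k : ℕ) (Δ : ℤ) (A : Finset ℤ) (G : ℤ → ℕ)
    (δ : ℝ), Prim m f → 1 ≤ m → 2 ≤ Z → 2 ≤ y → 0 < δ → Δ ≠ 0 → (∀ a ∈ A, |a| ≤ (R : ℤ)) →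
    (∀ a ∈ A, 0 < G a ∧ (G a : ℤ) ∣ Δ ∧ ∀ s, (G a : ℤ) ∣ (f s).eval a) →
    δ * (2 * (R : ℝ) + 1) ≤ A.card →
    8 * m * Real.logb 2 |(Δ : ℝ)| ≤ δ * y →
    8 * m * Real.logb 2 |(Δ : ℝ)| ≤ δ * (2 * (R : ℝ) + 1) →
    8 * m * (y : ℝ) ≤ δ * Z → 8 * m * (y : ℝ) ≤ δ * (2 * (R : ℝ) + 1) →
    ((m : ℝ) * (1 + Real.log y)) ^ k / k.factorial ≤ δ / 8 →
    ((m : ℝ) * y) ^ k ≤ δ * (2 * (R : ℝ) + 1) / 8 →
    ∃ a ∈ A, G a ≤ (Z ^ (m * (m + 1) / 2)) ^ k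

/-- ROW CTN (easy-medium).  The content of a finite family of integer polynomials, not all zero:
`c` = gcd of all coefficients of all `f s`. -/
def CtnStmt : Prop :=
  ∀ (σ : Type) [Fintype σ] (f : σ → Polynomial ℤ), (∃ s, f s ≠ 0) →
    ∃ (c : ℕ) (f' : σ → Polynomial ℤ), 0 < c ∧ (∀ s, f s = Polynomial.C (c : ℤ) * f' s) ∧
      ∀ p : ℕ, p.Prime → ∃ s k, ¬ (p : ℤ) ∣ (f' s).coeff k

/-- ROW KAP (strong, uses FAC IDX LOW PRM PLY ARC ARI CTN).  The line of `e` is rich.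
PROOF.  `U = 2R+1`, `L_a` = lattice of `w + a e`, `L_e = Lat g (pt g e)`.
(1) `rank L_e = m`: the `Y_j` are independent elements of `L_e` (`pt Y_j = θ_j pt e`), and `L_e ∩ L_a = 0`
for an `a ∈ A`, so `rank L_e ≤ 2m - m`.  Bases `b_a` of `L_a`, `b_e` of `L_e`.  `X_j + a Y_j ∈ L_a`, `Y_j ∈ L_e`, both
systems independent (as `θ` is).  FAC: `mn (X + aY) s = mn b_a s * det G_a`, `mn Y s = mn b_e s * det G_e`.
(2) `F_s = pf X Y s`, `s : Fin m → ι`: degree `≤ m`, `coeff_m = mn Y s`, `F_s(a) = mn (X + aY) s`.  By PRM (with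
`p = 2`) some `mn b_e s ≠ 0`; let `s₁` maximize `|mn b_e s| / ∏ N_(s i)` (finitely many `s`), so
`mn b_e s₁ ≠ 0`, `mn Y s₁ ≠ 0`.
(3) `η = ⌊δU/(2m)⌋ ≥ δU/(4m)`, `η ≥ 1`.  By ARC for `F_(s₁)` at most `m η ≤ δU/2` of the `a ∈ A` satisfy
`(m+1) |F_(s₁)(a)| < |mn Y s₁| η^m`; `A₁` = the others, `|A₁| ≥ (δ/2) U`.  For `a ∈ A₁` IDX (`r = 8`) gives
`|mn b_a s₁| k₀ ≤ (24(m+1))^m ∏ N_(s₁ i)`, so
`|mn Y s₁| η^m k₀ ≤ (m+1) |F_(s₁)(a)| k₀ ≤ (m+1) (24(m+1))^m ∏ N_(s₁ i) |det G_a|`.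
(4) CTN: `F_s = c F'_s`.  `c` divides all `mn Y s = mn b_e s * det G_e`; by PRM the minors `mn b_e s` have gcd `1`,
so `c ∣ det G_e`, `c ≤ |det G_e|`.  Let `G a = |det G_a| / gcd (|det G_a|, c)`.  It divides `Δ` (as `det G_a` does)
and all `F'_s(a)` (`det G_a ∣ c F'_s(a)`), and `G a ≥ |det G_a| / |det G_e|`.
(5) ARI with `δ/2`: some `a ∈ A₁` has `G a ≤ (Z^M)^k`, so by (3) and `mn Y s₁ = mn b_e s₁ det G_e`
`|mn b_e s₁| η^m k₀ ≤ (m+1) (24(m+1))^m (Z^M)^k ∏ N_(s₁ i)`.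
(6) LOW for `b_e`, `s₁`: `∏ N_(s₁ i) ≤ m^m |mn b_e s₁| cnt L_e N 1`.  Multiply and cancel `|mn b_e s₁| > 0`. -/
def KapStmt : Prop :=
  ∀ (ι : Type) [Fintype ι] [DecidableEq ι] (g : ι → ℂ) (N : ι → ℕ) (m : ℕ) (w e : ι → ℤ)
    (A : Finset ℤ) (R : ℕ) (X Y : Fin m → ι → ℤ) (θ : Fin m → ℝ) (Δ : ℤ) (k₀ δ : ℝ)
    (y Z k : ℕ), (∀ i, 1 ≤ N i) → LinearIndependent ℚ g → 1 ≤ m → Fintype.card ι = 2 * m →
    pt g e ≠ 0 → (∀ t : ℝ, pt g w ≠ t * pt g e) → Pen g w e X Y θ →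
    (∀ a ∈ A, |a| ≤ (R : ℤ) ∧ Module.finrank ℤ (Lat g (pt g (w + a • e))) = m ∧
      k₀ ≤ cnt (Lat g (pt g (w + a • e))) N 8 ∧
      ∃ u : Fin m → ι → ℤ, LinearIndependent ℤ u ∧
        ∀ k, u k ∈ Lat g (pt g (w + a • e)) ∧ InB N 8 (u k)) →
    0 < k₀ → 0 < δ → δ ≤ 1 → δ * (2 * (R : ℝ) + 1) ≤ A.card →
    4 * (m : ℝ) ≤ δ * (2 * (R : ℝ) + 1) → Δ ≠ 0 →
    (∀ (a : ℤ) (b : Fin m → ι → ℤ) (G : Matrix (Fin m) (Fin m) ℤ),
      (∀ j, X j + a • Y j = ∑ k, G k j • b k) → G.det ∣ Δ) →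
    2 ≤ y → 2 ≤ Z → 1 ≤ k → 16 * m * Real.logb 2 |(Δ : ℝ)| ≤ δ * y →
    16 * m * (y : ℝ) ≤ δ * Z → ((m : ℝ) * (1 + Real.log y)) ^ k / k.factorial ≤ δ / 16 →
    16 * ((m : ℝ) * y) ^ k ≤ δ * (2 * (R : ℝ) + 1) →
    (δ * (2 * (R : ℝ) + 1) / (4 * m)) ^ m * k₀ ≤
      ((m : ℝ) + 1) * (24 * ((m : ℝ) + 1) * m) ^ m * ((Z : ℝ) ^ (m * (m + 1) / 2)) ^ k *
        cnt (Lat g (pt g e)) N 1

/-- ROW PTP (medium).  Choice of the parameters.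
PROOF.  WLOG `C₁ ≥ 1`.  `y = ⌈16 D C₁ 3^D Q²⌉ + 2`, `Z = ⌈16 D y 3^D Q⌉ + 2`,
`k = ⌈6 D (1 + log y)⌉ + ⌈log₂ (16 * 3^D Q)⌉ + 1`.  Since `k! ≥ (k/3)^k`,
`(m (1+log y))^k / k! ≤ (3 D (1+log y)/k)^k ≤ 2^(-k) ≤ 1/(16 * 3^D Q) ≤ δ₁/16`.  `log y`, `log Z`, `k` are
`≤ C' log Q` (`Q ≥ 2`), so the last two bounds hold. -/
def PtpStmt : Prop :=
  ∀ (D : ℕ) (C₁ : ℝ), 1 ≤ D → ∃ C : ℝ, 1 ≤ C ∧ ∀ Q : ℕ, 2 ≤ Q →
    ∃ y Z k : ℕ, 2 ≤ y ∧ 2 ≤ Z ∧ 1 ≤ k ∧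
      (∀ m : ℕ, 1 ≤ m → m ≤ D → ∀ δ₁ Λ' : ℝ, 1 / (3 ^ D * (Q : ℝ)) ≤ δ₁ → Λ' ≤ C₁ * Q →
        16 * m * Λ' ≤ δ₁ * y ∧ 16 * m * (y : ℝ) ≤ δ₁ * Z ∧
        ((m : ℝ) * (1 + Real.log y)) ^ k / k.factorial ≤ δ₁ / 16) ∧
      16 * ((D : ℝ) * y) ^ k * (3 ^ D * Q) ≤ Real.exp (C * (Real.log Q) ^ 2) ∧
      ((Z : ℝ) ^ (D * D)) ^ k ≤ Real.exp (C * (Real.log Q) ^ 2)

/-- ROW PTH (strong, uses CNT LNP RNK CRA DTM KAP PTP).  The pencil theorem.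
PROOF.  `T` is not empty (`|εB| ≥ 1`).  `i₁` = a coordinate with the largest side, `R = ⌊2 ε N_(i₁)⌋`,
`U = 2R+1`; `|εB| = ∏ (2⌊ε N_i⌋+1) ≤ U^D`.  Parameters `y, Z, k` from PTP with a suitable `C₁ = C₁(D)`.
CASE 1: `|T| < 3` or `U < 16 (D y)^k 3^D Q`.  If `|T| < 3` then `|εB| ≤ 3Q`, otherwise `|εB| ≤ U^D`; in both
cases `|εB| ≤ exp (C' (log Q)²)`, and for a `v ∈ T` `rich` gives
`∏ N ≤ Q exp (C' (log Q)²) (cnt L_v N 8)²`: take `e = pt g v ≠ 0`.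
CASE 2.  RNK gives `m` with `D = 2m`, ranks and independent vectors.  LNP: `w`, `A`,
`|A| ≥ δ₁ U` with `δ₁ = δ/3^D` (replace `δ` by `min δ 1`, still `1/δ ≤ Q`), `δ₁ U ≥ 16`, so `A` has three
elements `a_0, a_1, a_2`.  `e = Pi.single i₁ 1`; `pt w` is not a real multiple of `pt e` (otherwise
`w + a_0 e`, `w + a_1 e` would be collinear, against `ncol`).  CRA with `H = 8 N_(i₁)` (entries of the vectors
of `8B` and `|a_j| ≤ R ≤ 2 N_(i₁)`) gives `X, Y, θ`; DTM gives `Δ` with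
`log₂ |Δ| ≤ log₂ ((2m)! (16 m (2m)! (8 * 2^Q)^(2m+4))^(2m)) ≤ C₁ Q`.  KAP with `k₀ = √(τ ∏ N) / U^m`
(`rich` and `|εB| ≤ U^(2m)`): `(δ₁ U/(4m))^m k₀ = (δ₁/(4m))^m √(τ ∏ N) ≤ (m+1) (24 (m+1) m)^m (Z^M)^k cnt L_e N 1`,
`cnt L_e N 1 ≤ cnt L_e N 8`, and `1/τ ≤ Q`, `1/δ₁ ≤ 3^D Q`, `M ≤ D²`: done (constants and powers of `Q` are
absorbed by `exp (C (log Q)²)`, as `log Q ≥ log 2`). -/
def PthStmt : Prop :=
  ∀ D : ℕ, 1 ≤ D → ∃ C : ℝ, 1 ≤ C ∧ ∀ (ι : Type) [Fintype ι] [DecidableEq ι] (g : ι → ℂ)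
    (N : ι → ℕ) (ε τ δ : ℝ) (T : Finset (ι → ℤ)) (Q : ℕ), Fintype.card ι = D →
    (∀ i, 1 ≤ N i) → LinearIndependent ℚ g → 0 < ε → ε ≤ 1 → 0 < τ → 0 < δ →
    Fam g N ε τ 8 T → δ * (bx N ε).card ≤ T.card → 72 ^ D * ε < τ →
    (∀ i, 72 ^ D < τ * N i) → 2 ≤ Q → 1 / τ ≤ Q → 1 / δ ≤ Q → (∀ i, N i ≤ 2 ^ Q) →
    ∃ e : ℂ, e ≠ 0 ∧
      Real.sqrt (∏ i, (N i : ℝ)) ≤ Real.exp (C * (Real.log Q) ^ 2) * cnt (Lat g e) N 8

/-- ROW GAP (easy).  Pigeonhole: `D` numbers `N i` and the `D + 1` disjoint intervals `[t k, t (k+1))`,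
`k = 0..D`. -/
def GapStmt : Prop :=
  ∀ (ι : Type) [Fintype ι] (N : ι → ℕ) (t : ℕ → ℕ), Monotone t →
    ∃ k ≤ Fintype.card ι, ∀ i, N i < t k ∨ t (k + 1) ≤ N i

/-- ROW MNT (medium-strong, uses SCL RST EXT PTH GAP).  From many orthogonal pairs to a rich line.
PROOF.  `C_S` = constant of SCL, `C_P` = maximum of the constants of PTH for the dimensions `1..D`.
`Λ = Q`, `1/τ₀ = C_S (Q+1)²`, `1/δ₀ = C_S (Q+1)`.  Let `q₀ = Q^3` (so `q₀ ≥ 72^D 81^D / τ₀` for `Q ≥ C`),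
exponents `e_0 = 1`, `e_(k+1) = D e_k + 2`, `t k = q₀^(e_k)`.  GAP: some `k ≤ D` such that every `N_i` is
`< t k` or `≥ t (k+1)`.  Choose `j₀ = ⌈log₂ (4 q₀^(e_(D+1)))⌉ ≤ C' log Q`; so SCL applies
(`C_S j₀ ≤ C log Q`).  First alternative of SCL: `e` is rich (radius `4 ≤ 8`).  Second: `ε ≤ 2/2^j₀ ≤
1/(2 q₀^(e_(D+1)))`, so `2 ε N_i < 1` if `N_i < t k`.  RST with `p i = (t (k+1) ≤ N_i)`: family `T'` in the
coordinates `p`, `τ' = τ₀ / ∏_(¬p) 81 N_i ≥ τ₀ / (81^D (t k)^D)`; `1/τ' ≤ q₀ (t k)^D / 72^D < t (k+1) / 72^D`, so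
`72^D < τ' N_i` for `p i` and `72^D ε < τ'`.  The index type is not empty (T' contains a nonzero vector).  PTH
with `Q' = q₀^(e_(D+2))` (`1/τ', 1/δ₀ ≤ Q'`, `N_i ≤ 2^Q ≤ 2^Q'`): `√(∏_p N) ≤ exp (C_P (log Q')²) cnt'`,
`log Q' ≤ C' log Q`; `∏ N ≤ (t k)^D ∏_p N` and EXT finish. -/
def MntStmt : Prop :=
  ∀ D : ℕ, ∃ C : ℝ, 1 ≤ C ∧ ∀ (ι : Type) [Fintype ι] [DecidableEq ι] (g : ι → ℂ) (N : ι → ℕ)
    (Q : ℕ), Fintype.card ι = D → (∀ i, 1 ≤ N i) → LinearIndependent ℚ g → C ≤ Q →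
    (∀ i, 4 * N i ≤ 2 ^ Q) → C * Real.log Q * ∏ i, (N i : ℝ) ≤ prp g N 4 →
    ∃ e : ℂ, e ≠ 0 ∧
      Real.sqrt (∏ i, (N i : ℝ)) ≤ Real.exp (C * (Real.log Q) ^ 2) * cnt (Lat g e) N 8

/-- ROW PIG (easy-medium).  A rich line of the lattice gives a rich line of `P`.
PROOF.  For every point `p = a + pt x` of `P`, `x ∈ B`, the `cnt` points `p + pt z`, `z ∈ L ∩ 8B`, lie on the
line `p + ℝ e` and in `a + pt (9B)`.  Lines parallel to `e` which meet `P`: each contains at least `cnt` of the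
`|9B|` points of `a + pt (9B)`, so there are at most `|9B| / cnt` lines, and one of them has at least
`|P| cnt / |9B|` points of `P`. -/
def PigStmt : Prop :=
  ∀ (ι : Type) [Fintype ι] [DecidableEq ι] (g : ι → ℂ) (N : ι → ℕ) (a e : ℂ) (P : Finset ℂ),
    LinearIndependent ℚ g → e ≠ 0 → (∀ z ∈ P, ∃ x ∈ bx N 1, z = a + pt g x) →
    ∃ z₀ : ℂ, (P.card : ℝ) * cnt (Lat g e) N 8 ≤ ((bx N 9).card : ℝ) *
      (open Classical in (P.filter fun p => ∃ t : ℝ, p = z₀ + t * e).card : ℕ)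

/-- ROW FIN (medium-strong, uses CNT DST MNT PIG).  The theorem.
PROOF.  `n = |P|`, `N'_i = max (N_i, 1)`; `n ≤ |bx N 1| ≤ ∏ (2 N_i + 1) ≤ 3^d ∏ N'_i` and
`∏ N'_i ≤ ∏ (2 N_i + 1) ≤ K n`.  `Q = ⌈log₂ (4 (K+1) n)⌉`: `4 N'_i ≤ 2^Q`, and for large `n`: `Q ≥ C`,
`Q ≤ 2 log n * 2`, `log Q ≤ 2 log log n`.  DST: `prp g N' 4 ≥ n² / (nd P + 1)`, and
`nd P + 1 ≤ 2 c n / log log n` for large `n`, so
`prp ≥ n log log n / (2c) ≥ (∏ N' / K) log log n / (2c) ≥ C log Q ∏ N'` if `4 c K C ≤ 1`.  MNT gives `e`;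
PIG: a line with at least `n cnt / |9B|` points, `|9B| ≤ 19^d ∏ N' ≤ 19^d K n`, so at least
`cnt / (19^d K) ≥ √(∏ N') exp (-C (log Q)²) / (19^d K) ≥ √n exp (-C' (log log n)²)`. -/
def FinStmt : Prop :=
  ∀ (d : ℕ) (K : ℝ), 0 < K → ∃ c C : ℝ, 0 < c ∧ 0 < C ∧ ∃ n₀ : ℕ, ∀ (g : Fin d → ℂ)
    (N : Fin d → ℕ) (a : ℂ) (P : Finset ℂ), LinearIndependent ℚ g →
    (∀ z ∈ P, ∃ x : Fin d → ℤ, (∀ i, |x i| ≤ (N i : ℤ)) ∧ z = a + ∑ i, (x i : ℂ) * g i) →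
    n₀ ≤ P.card → ∏ i, (2 * (N i : ℝ) + 1) ≤ K * P.card →
    (nd P : ℝ) * Real.log (Real.log P.card) ≤ c * P.card →
    ∃ z₀ e : ℂ, e ≠ 0 ∧ Real.sqrt P.card ≤ Real.exp (C * (Real.log (Real.log P.card)) ^ 2) *
      ((open Classical in (P.filter fun p => ∃ t : ℝ, p = z₀ + t * e).card : ℕ) : ℝ)

end Pool.Agent.PCL
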