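import Pool.Agent.PCL.Stmts

/-!
Squad PCL (MP_1fc801_co), strengthened rows: the hypothesis `c n / log log n` is replaced by `c n`.
SC2, MN2, FI2 replace SCL, MNT, FIN.
-/

set_option autoImplicit false

namespace Pool.Agent.PCL

/-- ROW SC2 (medium-strong, uses CNT QLM REP; replaces SCL).  Scale selection with the weights `1/j²`.
PROOF.  `V` from REP, `T(v) = cnt L_v * cnt L_v^⊥` (radius 4).  For `v ∈ V` let `j` be the natural number with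
`‖v‖ ≤ 2^(2-j)`, not `‖v‖ ≤ 2^(1-j)`; as `v ≠ 0` some `i` has `2^(2-j) N_i ≥ 1`, i.e. `2^j ≤ 4 N_i`.
`V_j` = these `v`, `ε = 2^(1-j)`.  QLM (`R = 4`, `L_v`, `L_v^⊥` are disjoint by `Lat_disj`, no nonzero vectors of
norm `≤ ε` by the third property) gives `T(v) |εB| ≤ 36^D ∏ N` (for `j = 0, ε = 2 ≤ 4`: fine);
`|V_j| ≤ |2εB| ≤ 3^D |εB|`.  So `S_j = ∑_(V_j) T(v) ≤ 108^D ∏ N`.
`prp ≤ 2 * 9^D ∏ N + 2 ∑_j S_j`; the part `j < j₀` is `≤ 2 j₀ 108^D ∏ N`; if all `S_j < ∏ N / (2 j²)` for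
`j ≥ j₀ ≥ 1` then `prp < (2 * 9^D + 2 j₀ 108^D + 2) ∏ N` (`∑ 1/j² < 2`), a contradiction for
`C ≥ 6 * 108^D`.  So some `j ≥ j₀` has `S_j ≥ β ∏ N`, `β = 1/(2 j²)`.  Let `τ₀ = β/(2 * 108^D)` and
`T₀ = {v ∈ V_j : T(v) |εB| ≥ τ₀ 36^D ∏ N}`; the other `v` contribute at most
`|V_j| τ₀ 36^D ∏ N / |εB| ≤ β ∏ N / 2`, so `∑_(T₀) T(v) ≥ β ∏ N / 2`, `|T₀| ≥ β |εB| / (2 * 36^D)` and `T₀` is
not empty.  If `|εB| ≤ 4 * 36^D / β`: for `v ∈ T₀` one of the two counts has square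
`≥ T(v) ≥ τ₀ 36^D ∏ N / |εB| ≥ ∏ N / (C j⁴)`: first alternative.  Otherwise: for `v ≠ v'` in `T₀` QLM for
`L_v^⊥`, `L_v'^⊥` shows that at most one `v ∈ T₀` has `(cnt L_v^⊥)² |εB| > 36^D ∏ N`; remove it:
`|T| ≥ |T₀| - 1 ≥ β |εB| / (4 * 36^D)`; for `v ∈ T`:
`(cnt L_v)² |εB| = (T(v) |εB|)² / ((cnt L_v^⊥)² |εB|) ≥ τ₀² 36^D ∏ N ≥ ∏ N / (C j⁴)`. -/
def Sc2Stmt : Prop :=
  ∀ D : ℕ, ∃ C : ℝ, 1 ≤ C ∧ ∀ (ι : Type) [Fintype ι] [DecidableEq ι] (g : ι → ℂ) (N : ι → ℕ)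
    (j₀ : ℕ), Fintype.card ι = D → (∀ i, 1 ≤ N i) → LinearIndependent ℚ g →
    1 ≤ j₀ → C * j₀ * ∏ i, (N i : ℝ) ≤ prp g N 4 →
    ∃ j : ℕ, j₀ ≤ j ∧ (∃ i, 2 ^ j ≤ 4 * N i) ∧
      ((∃ e : ℂ, e ≠ 0 ∧
        ∏ i, (N i : ℝ) ≤ C * (j : ℝ) ^ 4 * (cnt (Lat g e) N 4 : ℝ) ^ 2) ∨
      ∃ T : Finset (ι → ℤ), Fam g N (2 / 2 ^ j) (1 / (C * (j : ℝ) ^ 4)) 4 T ∧
        ((bx N (2 / 2 ^ j)).card : ℝ) ≤ C * (j : ℝ) ^ 2 * T.card)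

/-- ROW MN2 (medium-strong, uses SC2 RST EXT PTH GAP; replaces MNT).
PROOF.  `C_S` = constant of SC2, `C_P` = maximum of the constants of PTH for the dimensions `1..D`.  Exponents
`e_0 = 1`, `e_(k+1) = D e_k + 2`.  `K₀ = ⌈72^D 81^D C_S⌉`; `j₀` = a constant (depending on `D`) such that
`4 (K₀ j⁴)^(e_(D+1)) < 2^j` for all `j ≥ j₀`; `C ≥ C_S j₀`.  SC2 gives `j ≥ j₀`, `2^j ≤ 4 N_i ≤ 2^Q`, so `j ≤ Q`.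
First alternative: `e` is rich (radius `4 ≤ 8`), `C_S j⁴ ≤ C_S Q⁴`.  Second alternative: `ε = 2/2^j`,
`τ₀ = 1/(C_S j⁴)`, `δ₀ = 1/(C_S j²)`, `q₀ = K₀ j⁴ ≥ 72^D 81^D / τ₀`, `t k = q₀^(e_k)`.  GAP: some `k ≤ D` such that
every `N_i` is `< t k` or `≥ t (k+1)`.  `2 ε N_i < 1` if `N_i < t k` (as `4 t k < 2^j`).  RST with
`p i = (t (k+1) ≤ N_i)`: family `T'` in the coordinates `p`,
`τ' = τ₀ / ∏_(¬p) 81 N_i ≥ τ₀ / (81^D (t k)^D)`; `1/τ' ≤ q₀ (t k)^D / 72^D < t (k+1) / 72^D`, so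
`72^D < τ' N_i` for `p i`, and `72^D ε < τ'` because `t (k+1) ≤ q₀^(e_(D+1)) < 2^j/4`.  The index type is not empty
(`T'` contains a nonzero vector; its dimension `D'` is between `1` and `D`, and `72^(D') ≤ 72^D`).  PTH with
`Q' = Q * q₀^(e_(D+2))` (`1/τ', 1/δ₀ ≤ Q'`, `N_i ≤ 2^Q ≤ 2^Q'`):
`√(∏_p N) ≤ exp (C_P (log Q')²) cnt'`, `log Q' ≤ C' log Q` since `j ≤ Q`; `∏ N ≤ (t k)^D ∏_p N` and EXT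
finish. -/
def Mn2Stmt : Prop :=
  ∀ D : ℕ, ∃ C : ℝ, 1 ≤ C ∧ ∀ (ι : Type) [Fintype ι] [DecidableEq ι] (g : ι → ℂ) (N : ι → ℕ)
    (Q : ℕ), Fintype.card ι = D → (∀ i, 1 ≤ N i) → LinearIndependent ℚ g → C ≤ Q →
    (∀ i, 4 * N i ≤ 2 ^ Q) → C * ∏ i, (N i : ℝ) ≤ prp g N 4 →
    ∃ e : ℂ, e ≠ 0 ∧
      Real.sqrt (∏ i, (N i : ℝ)) ≤ Real.exp (C * (Real.log Q) ^ 2) * cnt (Lat g e) N 8

/-- ROW FI2 (medium, uses CNT DST MN2 PIG; replaces FIN).  The theorem.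
PROOF.  `n = |P|`, `N'_i = max (N_i, 1)`; `n ≤ |bx N' 1| = ∏ (2 N'_i + 1) ≤ 3^d ∏ N'_i` and
`∏ N'_i ≤ ∏ (2 N_i + 1) ≤ K n`.  `Q = ⌈log₂ (4 (K+1) n)⌉`: `4 N'_i ≤ 4 ∏ N' ≤ 2^Q`, and for large `n`: `Q ≥ C`,
`log Q ≤ 2 log log n`.  DST: `prp g N' 4 ≥ n² / (nd P + 1)`, and `nd P + 1 ≤ 2 c n` for large `n`, so
`prp ≥ n / (2c) ≥ ∏ N' / (2 c K) ≥ C ∏ N'` if `2 c K C ≤ 1`.  MN2 gives `e`; PIG: a line with at least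
`n cnt / |9B|` points, `|9B| ≤ 19^d ∏ N' ≤ 19^d K n`, so at least
`cnt / (19^d K) ≥ √(∏ N') exp (-C (log Q)²) / (19^d K) ≥ √n exp (-C' (log log n)²)` (constants are absorbed,
`log log n ≥ 1`). -/
def Fi2Stmt : Prop :=
  ∀ (d : ℕ) (K : ℝ), 0 < K → ∃ c C : ℝ, 0 < c ∧ 0 < C ∧ ∃ n₀ : ℕ, ∀ (g : Fin d → ℂ)
    (N : Fin d → ℕ) (a : ℂ) (P : Finset ℂ), LinearIndependent ℚ g →
    (∀ z ∈ P, ∃ x : Fin d → ℤ, (∀ i, |x i| ≤ (N i : ℤ)) ∧ z = a + ∑ i, (x i : ℂ) * g i) →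
    n₀ ≤ P.card → ∏ i, (2 * (N i : ℝ) + 1) ≤ K * P.card →
    (nd P : ℝ) ≤ c * P.card →
    ∃ z₀ e : ℂ, e ≠ 0 ∧ Real.sqrt P.card ≤ Real.exp (C * (Real.log (Real.log P.card)) ^ 2) *
      ((open Classical in (P.filter fun p => ∃ t : ℝ, p = z₀ + t * e).card : ℕ) : ℝ)

end Pool.Agent.PCL
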